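import Mathlib
import Pool.Agent.TH888.B1.Second

/-!
The Fermat-Catalan equation with one polynomial base `f(n)`, EVERY second base `A ≤ N ^ (1/2 - δ)` and
every third base up to `exp (N ^ c)`, all three exponents free.

For every `δ > 0` there is an absolute `c > 0` such that for every nonconstant integer polynomial `f`
and `ε > 0` there is a periodic set of integers of density at least `1 - ε` in which only
`N ^ (1 - δ/2)` integers `n ≤ N` have the property that `f(n)` is a base of a solution in coprime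
integers (with exponents `l`, `m`, `k`, `1/l + 1/m + 1/k ≤ 1`) with a second base at most
`N ^ (1/2 - δ)` and a third base at most `exp (N ^ c)`.
-/

set_option autoImplicit false

namespace Pool.Agent.Results.MP_509488_nt.EverySecondBase

open Polynomial

/-- `f n` and `A` are (coprime) bases of a solution with exponents `l`, `m`, `k ≥ 1` and signs `s`,
`t`, where `1/l + 1/m + 1/k ≤ 1`, and the third base `w` is nonzero of absolute value at most `W`. -/
def Exceptional (f : ℤ[X]) (A : ℕ) (W : ℝ) : Set ℕ :=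
  {n | ∃ (l m k : ℕ) (s t w : ℤ), 0 < l ∧ 0 < m ∧ 0 < k ∧
    m * k + k * l + l * m ≤ l * m * k ∧ (s = 1 ∨ s = -1) ∧ (t = 1 ∨ t = -1) ∧
    f.eval (n : ℤ) ≠ 0 ∧ w ≠ 0 ∧ |(w : ℝ)| ≤ W ∧ IsCoprime (f.eval (n : ℤ)) (A : ℤ) ∧
    f.eval (n : ℤ) ^ l + s * (A : ℤ) ^ m = t * w ^ k}

/-- There is a function `c` with `c δ > 0` for `δ > 0` such that for every nonconstant integer
polynomial `f` and `ε > 0` there are a modulus `M` and a set `G` of at least `(1 - ε) M` residue
classes modulo `M` such that for every `δ > 0` and large `N` at most `N ^ (1 - δ/2)` integers `n ≤ N`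
in these classes are exceptional for some second base `A` with `1 ≤ A ≤ N ^ (1/2 - δ)` and with a
third base at most `exp (N ^ (c δ))`. -/
theorem result : ∃ c : ℝ → ℝ, (∀ δ : ℝ, 0 < δ → 0 < c δ) ∧ ∀ f : ℤ[X], 0 < f.natDegree →
    ∀ ε : ℝ, 0 < ε → ∃ (M : ℕ) (G : Finset ℕ), 0 < M ∧ G ⊆ Finset.range M ∧
      (1 - ε) * M ≤ (G.card : ℝ) ∧ ∀ δ : ℝ, 0 < δ → ∃ N₀ : ℕ, ∀ N : ℕ, N₀ ≤ N →
        (({n : ℕ | 1 ≤ n ∧ n ≤ N ∧ n % M ∈ G ∧ ∃ A : ℕ, 0 < A ∧ (A : ℝ) ≤ (N : ℝ) ^ (1 / 2 - δ) ∧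
          n ∈ Exceptional f A (Real.exp ((N : ℝ) ^ c δ))}.ncard : ℝ)) ≤ (N : ℝ) ^ (1 - δ / 2) :=
  Pool.Agent.TH888.B1.sec_main

end Pool.Agent.Results.MP_509488_nt.EverySecondBase
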