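import Mathlib
import Pool.Agent.TH888.B2.NeighFC

/-!
The Fermat-Catalan equation with two neighbouring bases `n` and `n + k`.

For every `R`, one hundred per cent of the integers `n` have the property that for no squarefree `k`
with `2 ≤ k ≤ R`, prime to `n`, the integers `n` and `n + k` are two of the three bases of a solution
of the Fermat-Catalan equation. All three exponents and the third base are free.
-/

set_option autoImplicit false

namespace Pool.Agent.Results.MP_509488_nt.NeighboursAllExponents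

/-- `n` and `n + k` are two of the three bases of a coprime solution: `w` is the third base, `x`,
`y`, `z` are the exponents of `n`, `n + k`, `w`, and `z ≥ 3` or `1/x + 1/y + 1/z < 1`. -/
def TwoBases (n k : ℕ) : Prop :=
  Nat.Coprime n k ∧ ∃ x y z w : ℕ, 0 < x ∧ 0 < y ∧ 0 < w ∧
    (3 ≤ z ∨ y * z + z * x + x * y < x * y * z) ∧
    (n ^ x + (n + k) ^ y = w ^ z ∨ n ^ x + w ^ z = (n + k) ^ y ∨ (n + k) ^ y + w ^ z = n ^ x)

/-- For every `R` and `ε > 0` and all large `N` at most `ε N` positive integers `n ≤ N` are such that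
`n` and `n + k` are two bases of a solution for some squarefree `k` with `2 ≤ k ≤ R`. -/
theorem result (R : ℕ) (ε : ℝ) (hε : 0 < ε) : ∃ N₀ : ℕ, ∀ N : ℕ, N₀ ≤ N →
    (({n : ℕ | 0 < n ∧ n ≤ N ∧ ∃ k : ℕ, Squarefree k ∧ 2 ≤ k ∧ k ≤ R ∧ TwoBases n k}.ncard : ℕ) : ℝ)
      ≤ ε * N := by
  classical
  have hε' : 0 < ε / (R + 1) := by positivity
  have h : ∀ k : ℕ, ∃ N₀ : ℕ, ∀ N : ℕ, N₀ ≤ N → Squarefree k → 2 ≤ k →
      (({n : ℕ | 0 < n ∧ n ≤ N ∧ TwoBases n k}.ncard : ℕ) : ℝ) ≤ ε / (R + 1) * N := by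
    intro k
    by_cases hk : Squarefree k ∧ 2 ≤ k
    · obtain ⟨N₀, hN₀⟩ := Pool.Agent.TH888.B2.neigh_fc hk.1 hk.2 (ε / (R + 1)) hε'
      exact ⟨N₀, fun N hN _ _ => hN₀ N hN⟩
    · exact ⟨0, fun N _ h1 h2 => absurd ⟨h1, h2⟩ hk⟩
  choose f hf using h
  refine ⟨(Finset.range (R + 1)).sup f, fun N hN => ?_⟩
  have hsub : {n : ℕ | 0 < n ∧ n ≤ N ∧ ∃ k : ℕ, Squarefree k ∧ 2 ≤ k ∧ k ≤ R ∧ TwoBases n k} ⊆
      ⋃ k ∈ Finset.range (R + 1),
        {n : ℕ | 0 < n ∧ n ≤ N ∧ Squarefree k ∧ 2 ≤ k ∧ TwoBases n k} := by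
    rintro n ⟨h1, h2, k, h3, h4, h5, h6⟩
    simp only [Set.mem_iUnion, Finset.mem_range, exists_prop]
    exact ⟨k, by omega, h1, h2, h3, h4, h6⟩
  have hfin : ∀ k ∈ Finset.range (R + 1),
      {n : ℕ | 0 < n ∧ n ≤ N ∧ Squarefree k ∧ 2 ≤ k ∧ TwoBases n k}.Finite := fun k _ =>
    (Set.finite_Icc 0 N).subset fun n hn => ⟨Nat.zero_le _, hn.2.1⟩
  have h1 := (Set.ncard_le_ncard hsub ((Finset.range (R + 1)).finite_toSet.biUnion hfin)).trans
    (Finset.set_ncard_biUnion_le _ _)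
  have h2 : ∀ k ∈ Finset.range (R + 1),
      (({n : ℕ | 0 < n ∧ n ≤ N ∧ Squarefree k ∧ 2 ≤ k ∧ TwoBases n k}.ncard : ℕ) : ℝ) ≤
        ε / (R + 1) * N := by
    intro k hk
    by_cases hk2 : Squarefree k ∧ 2 ≤ k
    · refine le_trans ?_ (hf k N ((Finset.le_sup hk).trans hN) hk2.1 hk2.2)
      have h3 : {n : ℕ | 0 < n ∧ n ≤ N ∧ Squarefree k ∧ 2 ≤ k ∧ TwoBases n k} ⊆
          {n : ℕ | 0 < n ∧ n ≤ N ∧ TwoBases n k} := fun n hn => ⟨hn.1, hn.2.1, hn.2.2.2.2⟩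
      exact_mod_cast Set.ncard_le_ncard h3
        ((Set.finite_Icc 0 N).subset fun n hn => ⟨Nat.zero_le _, hn.2.1⟩)
    · have h3 : {n : ℕ | 0 < n ∧ n ≤ N ∧ Squarefree k ∧ 2 ≤ k ∧ TwoBases n k} = ∅ := by
        ext n
        simp only [Set.mem_ofPred_eq, Set.mem_empty_iff_false, iff_false]
        exact fun hn => hk2 ⟨hn.2.2.1, hn.2.2.2.1⟩
      rw [h3, Set.ncard_empty, Nat.cast_zero]
      positivity
  calc (({n : ℕ | 0 < n ∧ n ≤ N ∧ ∃ k : ℕ, Squarefree k ∧ 2 ≤ k ∧ k ≤ R ∧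
        TwoBases n k}.ncard : ℕ) : ℝ)
      ≤ ((∑ k ∈ Finset.range (R + 1),
          {n : ℕ | 0 < n ∧ n ≤ N ∧ Squarefree k ∧ 2 ≤ k ∧ TwoBases n k}.ncard : ℕ) : ℝ) := by
        exact_mod_cast h1
    _ ≤ ∑ _k ∈ Finset.range (R + 1), ε / (R + 1) * N := by
        push_cast
        exact Finset.sum_le_sum h2
    _ = ε * N := by
        rw [Finset.sum_const, Finset.card_range, nsmul_eq_mul]
        push_cast
        field_simp

end Pool.Agent.Results.MP_509488_nt.NeighboursAllExponents
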