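import Mathlib
import Pool.Agent.TH194.BL.Main
import Pool.Agent.TH194.BL.Fin6

/-!
# The Fermat-Catalan equation with all exponents free and the first base in a sparse set

Let `K` and `ε > 0` be given. For all large `X`, `Y` with `a + X ≤ Y ^ K`, `b ≤ Y ^ K` and for every
set `S` of integers in `(a, a + X]` with at least `X * min (X, Y) ^ (-1/4 + ε)` elements, all but
`ε |S| Y` of the coprime pairs `(A, B)` with `A` in `S` and `B` in `(b, b + Y]` are such that none of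
the numbers `A ^ x + B ^ y`, `B ^ y - A ^ x`, `A ^ x - B ^ y` with `x, y ≥ 1` is a perfect power `C ^ z`,
`z ≥ 2`, `C ≥ 1`. All three exponents and the third base are free.

For `X = Y = N`, `a = b = 0` the set `S` may be any set of at least `N ^ (3/4 + ε)` integers up to
`N`, for example the primes up to `N`.
-/

namespace Pool.Agent.Results.MP_509488_nt.SparseFirstBases

open Pool.Agent.TH194.BL

theorem result : ∀ (K : ℕ) (ε : ℝ), 0 < ε → ∃ L : ℕ, ∀ X Y a b : ℕ, L ≤ X → L ≤ Y →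
    a + X ≤ Y ^ K → b ≤ Y ^ K → ∀ S : Finset ℕ, (∀ A ∈ S, a < A ∧ A ≤ a + X) →
    (X : ℝ) * ((min X Y : ℕ) : ℝ) ^ (-(1 / 4) + ε) ≤ (S.card : ℝ) →
    (({p : ℕ × ℕ | p.1 ∈ S ∧ (b < p.2 ∧ p.2 ≤ b + Y) ∧ Nat.Coprime p.1 p.2 ∧
      ∃ x y z C : ℕ, 0 < x ∧ 0 < y ∧ 2 ≤ z ∧ 0 < C ∧
        (p.1 ^ x + p.2 ^ y = C ^ z ∨ p.1 ^ x + C ^ z = p.2 ^ y ∨
          p.2 ^ y + C ^ z = p.1 ^ x)}.ncard : ℕ) : ℝ) ≤ ε * ((S.card : ℝ) * Y) :=
  fun K _ hε => all_exponents loc (lsk add low) desc ssp K hε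

end Pool.Agent.Results.MP_509488_nt.SparseFirstBases
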