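import Mathlib
import Pool.Agent.TH863.Cover

/-!
The Fermat-Catalan equation with signature `(p, p, r)`, all exponents free: the third base `z` lies
in a set with a power saving.

At most `C * N ^ (5 / 6) * (log (N + 2)) ^ 5` numbers `z ≤ N` satisfy `x ^ p + y ^ p = z ^ r` for some
coprime positive integers `x`, `y` and some primes `p`, `r` with `2 / p + 1 / r ≤ 1`.
-/

namespace Pool.Agent.Results.MP_509488_nt.SumPowerSaving

theorem result : ∃ C : ℝ, ∀ N : ℕ, 1 ≤ N →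
    (({z : ℕ | z ≤ N ∧ ∃ x y p r : ℕ, 0 < x ∧ 0 < y ∧ p.Prime ∧ r.Prime ∧ Nat.Coprime x y ∧
      (1 : ℚ) / p + 1 / p + 1 / r ≤ 1 ∧ x ^ p + y ^ p = z ^ r}.ncard : ℕ) : ℝ) ≤
      C * (N : ℝ) ^ (5 / 6 : ℝ) * (Real.log (N + 2)) ^ 5 :=
  Pool.Agent.TH863.final

end Pool.Agent.Results.MP_509488_nt.SumPowerSaving
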